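import Pool.Agent.Q169.BilMain

/-!
# `MP_fd4af6_gt`: a positive answer

Every continuous simple closed curve of length `1`, parametrized counterclockwise by arc length,
that bounds a convex set is the uniform limit of a sequence of billiard tables which is a Cauchy
sequence for the geometric distance `d_B`.

The definitions (`Bounds`, `IsTable`, `IsHomotopy`, `homotopyLength`, `dB`, `IsConvexCurve`) are in
`Pool/Agent/Q169/BilDefs.lean`.
-/

set_option autoImplicit false

open Set Filter
open Q169.Billiard

namespace Pool.Agent.Results.MP_fd4af6_gt.CauchyApprox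

theorem result (C : ℝ → ℂ) (hC : IsConvexCurve C) :
    ∃ α : ℕ → ℝ → ℂ, (∀ i, IsTable (α i)) ∧
      (∀ ε > 0, ∃ N, ∀ i ≥ N, ∀ j ≥ N, dB (α i) (α j) < ε) ∧
      TendstoUniformly α C atTop :=
  main hC

end Pool.Agent.Results.MP_fd4af6_gt.CauchyApprox
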